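import Mathlib

set_option autoImplicit false

/-!
For every infinite cardinal `κ` there is a `κ`-octahedral Banach space without subspaces isomorphic
to `ℓ_1(κ⁺)`.
-/

namespace Pool.Agent.Results.MP_814c9d_an.NoCopy

open Cardinal Filter Topology

universe u

/-- The density character of `Y` is at most `κ`. -/
def DensLE {X : Type u} [NormedAddCommGroup X] (Y : Set X) (κ : Cardinal.{u}) : Prop :=
  ∃ D : Set X, D ⊆ Y ∧ Y ⊆ closure D ∧ #D ≤ κ

/-- `X` is `κ`-octahedral. -/
def IsOctahedral (κ : Cardinal.{u}) (X : Type u) [NormedAddCommGroup X] [NormedSpace ℝ X] : Prop :=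
  ∀ ε : ℝ, 0 < ε → ∀ Y : Submodule ℝ X, DensLE (Y : Set X) κ →
    ∃ x : X, ‖x‖ = 1 ∧ ∀ t : ℝ, ∀ y ∈ Y, (1 - ε) * (|t| + ‖y‖) ≤ ‖t • x + y‖

/-- `X` has a closed subspace linearly isomorphic to `E`. -/
def ContainsCopy (X E : Type u) [NormedAddCommGroup X] [NormedSpace ℝ X] [NormedAddCommGroup E]
    [NormedSpace ℝ E] : Prop :=
  ∃ Z : Submodule ℝ X, IsClosed (Z : Set X) ∧ Nonempty (E ≃L[ℝ] Z)

section construction

variable (Γ : Type u) [LinearOrder Γ]

/-- Finitely supported functions on `ℕ × Γ`. -/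
def V : Type u := (ℕ × Γ) →₀ ℝ

noncomputable instance : AddCommGroup (V Γ) := inferInstanceAs (AddCommGroup ((ℕ × Γ) →₀ ℝ))
noncomputable instance : Module ℝ (V Γ) := inferInstanceAs (Module ℝ ((ℕ × Γ) →₀ ℝ))

variable {Γ}

/-- The numbers `q_n = 1 - 1/(n+2)`. -/
noncomputable def q (n : ℕ) : ℝ := 1 - 1 / (n + 2)

lemma q_pos (n : ℕ) : 0 < q n := by
  unfold q
  rw [sub_pos, div_lt_one (by positivity)]
  linarith [(Nat.cast_nonneg n : (0 : ℝ) ≤ n)]

lemma q_lt (n : ℕ) : q n < 1 := by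
  unfold q
  have : (0 : ℝ) < 1 / (n + 2) := by positivity
  linarith

lemma one_sub_q (n : ℕ) : 1 - q n = 1 / (n + 2) := by unfold q; ring

/-- The number of points of `F` above `p` in the block of `p`. -/
def cnt (F : Finset (ℕ × Γ)) (p : ℕ × Γ) : ℕ :=
  (F.filter fun p' => p'.1 = p.1 ∧ p.2 < p'.2).card

/-- The seminorm of `F`. -/
noncomputable def w (F : Finset (ℕ × Γ)) (v : (ℕ × Γ) →₀ ℝ) : ℝ :=
  ∑ p ∈ F, q p.1 ^ cnt F p * |v p|

lemma w_nonneg (F : Finset (ℕ × Γ)) (v : (ℕ × Γ) →₀ ℝ) : 0 ≤ w F v :=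
  Finset.sum_nonneg fun p _ => mul_nonneg (pow_nonneg (q_pos _).le _) (abs_nonneg _)

lemma w_le (F : Finset (ℕ × Γ)) (v : (ℕ × Γ) →₀ ℝ) : w F v ≤ ∑ p ∈ v.support, |v p| := by
  calc w F v ≤ ∑ p ∈ F, |v p| := by
        refine Finset.sum_le_sum fun p _ => ?_
        have : q p.1 ^ cnt F p ≤ 1 := pow_le_one₀ (q_pos _).le (q_lt _).le
        nlinarith [abs_nonneg (v p)]
    _ ≤ ∑ p ∈ F ∪ v.support, |v p| :=
        Finset.sum_le_sum_of_subset_of_nonneg Finset.subset_union_left
          fun _ _ _ => abs_nonneg _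
    _ = ∑ p ∈ v.support, |v p| := by
        symm
        refine Finset.sum_subset Finset.subset_union_right fun _ _ hp => ?_
        rw [Finsupp.notMem_support_iff.1 hp, abs_zero]

lemma bdd (v : (ℕ × Γ) →₀ ℝ) : BddAbove (Set.range fun F : Finset (ℕ × Γ) => w F v) :=
  ⟨∑ p ∈ v.support, |v p|, by rintro _ ⟨F, rfl⟩; exact w_le F v⟩

/-- The norm. -/
noncomputable def N (v : (ℕ × Γ) →₀ ℝ) : ℝ := ⨆ F : Finset (ℕ × Γ), w F v

lemma w_le_N (F : Finset (ℕ × Γ)) (v : (ℕ × Γ) →₀ ℝ) : w F v ≤ N v := le_ciSup (bdd v) F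

lemma N_le (v : (ℕ × Γ) →₀ ℝ) (c : ℝ) (h : ∀ F, w F v ≤ c) : N v ≤ c := ciSup_le h

lemma abs_le_N (v : (ℕ × Γ) →₀ ℝ) (p : ℕ × Γ) : |v p| ≤ N v := by
  refine le_trans ?_ (w_le_N {p} v)
  rw [w, Finset.sum_singleton]
  have : cnt {p} p = 0 := by
    rw [cnt, Finset.card_eq_zero, Finset.filter_eq_empty_iff]
    intro p' hp'
    rw [Finset.mem_singleton] at hp'
    subst hp'
    simp
  rw [this, pow_zero, one_mul]

lemma w_add (F : Finset (ℕ × Γ)) (v v' : (ℕ × Γ) →₀ ℝ) : w F (v + v') ≤ w F v + w F v' := by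
  rw [w, w, w, ← Finset.sum_add_distrib]
  refine Finset.sum_le_sum fun p _ => ?_
  rw [← mul_add]
  refine mul_le_mul_of_nonneg_left ?_ (pow_nonneg (q_pos _).le _)
  rw [Finsupp.add_apply]
  exact abs_add_le _ _

lemma w_smul (F : Finset (ℕ × Γ)) (c : ℝ) (v : (ℕ × Γ) →₀ ℝ) : w F (c • v) = |c| * w F v := by
  rw [w, w, Finset.mul_sum]
  refine Finset.sum_congr rfl fun p _ => ?_
  rw [Finsupp.smul_apply, smul_eq_mul, abs_mul]
  ring

lemma w_neg (F : Finset (ℕ × Γ)) (v : (ℕ × Γ) →₀ ℝ) : w F (-v) = w F v := by simp [w]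

lemma eq_zero_of_N (v : (ℕ × Γ) →₀ ℝ) (h : N v = 0) : v = 0 := by
  refine Finsupp.ext fun p => ?_
  have h1 := abs_le_N v p
  rw [h] at h1
  exact abs_nonpos_iff.1 h1

noncomputable instance : NormedAddCommGroup (V Γ) :=
  AddGroupNorm.toNormedAddCommGroup
    { toFun := fun v => N v
      map_zero' := by
        have : ∀ F : Finset (ℕ × Γ), w F 0 = 0 := fun F => by simp [w]
        change (⨆ F : Finset (ℕ × Γ), w F 0) = 0
        simp [this]
      add_le' := fun v v' => N_le _ _ fun F =>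
        (w_add F v v').trans (add_le_add (w_le_N F v) (w_le_N F v'))
      neg' := fun v => by
        have : ∀ F : Finset (ℕ × Γ), w F (-v : (ℕ × Γ) →₀ ℝ) = w F v := fun F => w_neg F v
        change (⨆ F : Finset (ℕ × Γ), w F (-v : (ℕ × Γ) →₀ ℝ)) = ⨆ F : Finset (ℕ × Γ), w F v
        simp only [this]
      eq_zero_of_map_eq_zero' := fun v hv => eq_zero_of_N v hv }

lemma norm_V (v : V Γ) : ‖v‖ = N v := rfl

noncomputable instance : NormedSpace ℝ (V Γ) where
  norm_smul_le c v := by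
    rw [norm_V, norm_V]
    refine N_le _ _ fun F => ?_
    have : w F (c • v : (ℕ × Γ) →₀ ℝ) = |c| * w F v := w_smul F c v
    refine this.le.trans ?_
    rw [Real.norm_eq_abs]
    exact mul_le_mul_of_nonneg_left (w_le_N F v) (abs_nonneg c)

lemma N_single (p : ℕ × Γ) (t : ℝ) : N (Finsupp.single p t) = |t| := by
  apply le_antisymm
  · refine N_le _ _ fun F => (w_le F _).trans ?_
    calc ∑ p' ∈ (Finsupp.single p t).support, |Finsupp.single p t p'|
        ≤ ∑ p' ∈ {p}, |Finsupp.single p t p'| :=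
          Finset.sum_le_sum_of_subset_of_nonneg Finsupp.support_single_subset
            fun _ _ _ => abs_nonneg _
      _ = |t| := by simp
  · have := abs_le_N (Finsupp.single p t) p
    simpa using this

/-- A new point above the support is almost `ℓ_1`-orthogonal. -/
lemma octahedral_V (v : (ℕ × Γ) →₀ ℝ) (γ : Γ) (hγ : ∀ p ∈ v.support, p.2 < γ) (n : ℕ) (t : ℝ) :
    q n * (|t| + N v) ≤ N (Finsupp.single (n, γ) t + v) := by
  have hq := q_pos n
  have hq1 := q_lt n
  have main : ∀ F : Finset (ℕ × Γ), |t| + q n * w F v ≤ N (Finsupp.single (n, γ) t + v) := by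
    intro F
    set F' := F.filter fun p => p ∈ v.support with hF'
    have h1 : w F v ≤ w F' v := by
      rw [w, w, hF', Finset.sum_filter]
      refine Finset.sum_le_sum fun p _ => ?_
      split_ifs with h
      · refine mul_le_mul_of_nonneg_right ?_ (abs_nonneg _)
        refine pow_le_pow_of_le_one (q_pos _).le (q_lt _).le ?_
        exact Finset.card_le_card (Finset.filter_subset_filter _ (Finset.filter_subset _ _))
      · rw [Finsupp.notMem_support_iff.1 h, abs_zero, mul_zero]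
    have hmem : ∀ p ∈ F', p.2 < γ := fun p hp => hγ p (Finset.mem_filter.1 hp).2
    have hnot : (n, γ) ∉ F' := fun h => lt_irrefl _ (hmem _ h)
    have hv : v (n, γ) = 0 := by
      by_contra h
      exact lt_irrefl _ (hγ _ (Finsupp.mem_support_iff.2 h))
    refine le_trans ?_ (w_le_N (insert (n, γ) F') _)
    change _ ≤ ∑ p ∈ insert (n, γ) F', q p.1 ^ cnt (insert (n, γ) F') p *
      |(Finsupp.single (n, γ) t + v) p|
    rw [Finset.sum_insert hnot]
    have h2 : cnt (insert (n, γ) F') (n, γ) = 0 := by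
      rw [cnt, Finset.card_eq_zero, Finset.filter_eq_empty_iff]
      rintro p hp ⟨_, h⟩
      rcases Finset.mem_insert.1 hp with rfl | hp
      · exact lt_irrefl _ h
      · exact lt_asymm h (hmem p hp)
    rw [h2, pow_zero, one_mul, Finsupp.add_apply, Finsupp.single_eq_same, hv, add_zero]
    refine add_le_add le_rfl ?_
    calc q n * w F v ≤ q n * w F' v := mul_le_mul_of_nonneg_left h1 hq.le
      _ ≤ _ := by
        rw [w, Finset.mul_sum]
        refine Finset.sum_le_sum fun p hp => ?_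
        have hne : p ≠ (n, γ) := fun h => hnot (h ▸ hp)
        rw [Finsupp.add_apply, Finsupp.single_eq_of_ne hne, zero_add, ← mul_assoc]
        refine mul_le_mul_of_nonneg_right ?_ (abs_nonneg _)
        by_cases hpn : p.1 = n
        · have h3 : cnt (insert (n, γ) F') p ≤ cnt F' p + 1 := by
            rw [cnt, cnt, Finset.filter_insert]
            split_ifs
            · exact Finset.card_insert_le _ _
            · exact Nat.le_succ _
          calc q n * q p.1 ^ cnt F' p = q p.1 ^ (cnt F' p + 1) := by rw [hpn, pow_succ, mul_comm]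
            _ ≤ _ := pow_le_pow_of_le_one (q_pos _).le (q_lt _).le h3
        · have h3 : cnt (insert (n, γ) F') p = cnt F' p := by
            rw [cnt, cnt, Finset.filter_insert, if_neg]
            rintro ⟨h, _⟩
            exact hpn h.symm
          rw [h3]
          have := pow_nonneg (q_pos p.1).le (cnt F' p)
          nlinarith
  have h4 : N v ≤ (N (Finsupp.single (n, γ) t + v) - |t|) / q n := by
    refine N_le _ _ fun F => ?_
    rw [le_div_iff₀ hq]
    linarith [main F]
  rw [le_div_iff₀ hq] at h4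
  nlinarith [abs_nonneg t]

lemma sum_pow_aux (c : ℝ) : ∀ (k : ℕ) (F : Finset (ℕ × Γ)), F.card = k →
    (∀ p ∈ F, ∀ p' ∈ F, p.2 = p'.2 → p = p') →
    ∑ p ∈ F, c ^ (F.filter fun p' => p.2 < p'.2).card = ∑ i ∈ Finset.range k, c ^ i := by
  intro k
  induction k with
  | zero =>
    intro F hF _
    rw [Finset.card_eq_zero.1 hF]
    simp
  | succ k ih =>
    intro F hF hinj
    have hne : F.Nonempty := Finset.card_pos.1 (by omega)
    obtain ⟨a, haF, hmin⟩ := Finset.exists_min_image F Prod.snd hne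
    have h1 : (F.erase a).card = k := by rw [Finset.card_erase_of_mem haF, hF]; rfl
    have h2 := ih (F.erase a) h1 fun p hp p' hp' h =>
      hinj p (Finset.mem_of_mem_erase hp) p' (Finset.mem_of_mem_erase hp') h
    rw [Finset.sum_range_succ, ← h2, ← Finset.add_sum_erase F _ haF, add_comm]
    congr 1
    · refine Finset.sum_congr rfl fun p hp => ?_
      congr 2
      ext p'
      simp only [Finset.mem_filter, Finset.mem_erase]
      constructor
      · rintro ⟨h3, h4⟩
        refine ⟨⟨?_, h3⟩, h4⟩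
        rintro rfl
        exact absurd (hmin p (Finset.mem_of_mem_erase hp)) (not_le.2 h4)
      · rintro ⟨⟨_, h3⟩, h4⟩
        exact ⟨h3, h4⟩
    · congr 1
      rw [← h1]
      congr 1
      ext p'
      simp only [Finset.mem_filter, Finset.mem_erase]
      constructor
      · rintro ⟨h3, h4⟩
        exact ⟨fun h => by rw [h] at h4; exact lt_irrefl _ h4, h3⟩
      · rintro ⟨h3, h4⟩
        refine ⟨h4, lt_of_le_of_ne (hmin p' h4) fun h => ?_⟩
        exact h3 (hinj a haF p' h4 h).symm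

lemma sum_pow_le (n : ℕ) (F : Finset (ℕ × Γ))
    (hinj : ∀ p ∈ F, ∀ p' ∈ F, p.2 = p'.2 → p = p') :
    ∑ p ∈ F, q n ^ (F.filter fun p' => p.2 < p'.2).card ≤ n + 2 := by
  rw [sum_pow_aux (q n) F.card F rfl hinj, geom_sum_eq (q_lt n).ne]
  have h1 : (q n ^ F.card - 1) / (q n - 1) = (1 - q n ^ F.card) * (n + 2) := by
    have h2 : q n - 1 = -(1 / (n + 2)) := by rw [← one_sub_q]; ring
    rw [h2]
    have : (n + 2 : ℝ) ≠ 0 := by positivity
    field_simp
    ring
  rw [h1]
  have := pow_nonneg (q_pos n).le F.card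
  have h3 : (0 : ℝ) ≤ n + 2 := by positivity
  nlinarith

/-- On finitely many blocks the norm is dominated by the sup norm. -/
lemma N_le_sup (K : ℕ) (M : ℝ) (hM : 0 ≤ M) (v : (ℕ × Γ) →₀ ℝ) (hv : ∀ p ∈ v.support, p.1 < K)
    (hvM : ∀ p, |v p| ≤ M) : N v ≤ M * ∑ n ∈ Finset.range K, ((n : ℝ) + 2) := by
  refine N_le _ _ fun F => ?_
  have h1 : w F v ≤ ∑ p ∈ F.filter (fun p => p.1 < K), q p.1 ^ cnt F p * M := by
    rw [w, Finset.sum_filter]
    refine Finset.sum_le_sum fun p _ => ?_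
    split_ifs with h
    · exact mul_le_mul_of_nonneg_left (hvM p) (pow_nonneg (q_pos _).le _)
    · have : v p = 0 := by
        by_contra h'
        exact h (hv p (Finsupp.mem_support_iff.2 h'))
      rw [this, abs_zero, mul_zero]
  refine h1.trans ?_
  rw [← Finset.sum_mul, mul_comm M]
  refine mul_le_mul_of_nonneg_right ?_ hM
  rw [← Finset.sum_fiberwise_of_maps_to (t := Finset.range K) (g := Prod.fst)
    (fun p hp => Finset.mem_range.2 (Finset.mem_filter.1 hp).2)]
  refine Finset.sum_le_sum fun n hn => ?_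
  set G := (F.filter (fun p => p.1 < K)).filter (fun p => p.1 = n) with hG
  have hG1 : ∀ p ∈ G, p.1 = n := fun p hp => (Finset.mem_filter.1 hp).2
  refine le_trans (le_of_eq ?_) (sum_pow_le n G fun p hp p' hp' h =>
    Prod.ext ((hG1 p hp).trans (hG1 p' hp').symm) h)
  refine Finset.sum_congr rfl fun p hp => ?_
  rw [hG1 p hp, cnt]
  congr 2
  ext p'
  simp only [hG, Finset.mem_filter]
  constructor
  · rintro ⟨h3, h4, h5⟩
    rw [hG1 p hp] at h4
    exact ⟨⟨⟨h3, by rw [h4]; exact Finset.mem_range.1 hn⟩, h4⟩, h5⟩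
  · rintro ⟨⟨⟨h3, _⟩, h4⟩, h5⟩
    exact ⟨h3, h4.trans (hG1 p hp).symm, h5⟩

/-- The Banach space. -/
abbrev X (Γ : Type u) [LinearOrder Γ] : Type u := UniformSpace.Completion (V Γ)

/-- The basis vector, in `V`. -/
noncomputable def basisV (p : ℕ × Γ) (t : ℝ) : V Γ := Finsupp.single p t

lemma octahedral_X (κ : Cardinal.{u}) (hκ : ℵ₀ ≤ κ)
    (hΓ : ∀ S : Set Γ, #S ≤ κ → ∃ γ, ∀ α ∈ S, α < γ) : IsOctahedral κ (X Γ) := by
  rintro ε hε Y ⟨D, hDY, hYD, hD⟩
  -- approximations of the elements of `D`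
  have happ : ∀ (d : X Γ) (k : ℕ), ∃ v : V Γ, ‖(v : X Γ) - d‖ < 1 / (k + 1) := by
    intro d k
    obtain ⟨v, hv⟩ := (UniformSpace.Completion.denseRange_coe (α := V Γ)).exists_dist_lt d
      (show (0 : ℝ) < 1 / (k + 1) by positivity)
    exact ⟨v, by rw [norm_sub_rev, ← dist_eq_norm]; exact hv⟩
  choose v hv using happ
  let S : Set Γ := ⋃ i : D × ℕ, Prod.snd '' ((v i.1 i.2 : (ℕ × Γ) →₀ ℝ).support : Set (ℕ × Γ))
  have hS : #S ≤ κ := by
    calc #S ≤ Cardinal.sum fun i : D × ℕ =>
          #(Prod.snd '' ((v i.1 i.2 : (ℕ × Γ) →₀ ℝ).support : Set (ℕ × Γ)) : Set Γ) :=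
          Cardinal.mk_iUnion_le_sum_mk
      _ ≤ Cardinal.sum fun _ : D × ℕ => ℵ₀ := Cardinal.sum_le_sum _ _ fun i =>
          (Cardinal.lt_aleph0_iff_set_finite.2 ((Finset.finite_toSet _).image _)).le
      _ = #(D × ℕ) * ℵ₀ := by simp
      _ ≤ κ * ℵ₀ * ℵ₀ := by
          rw [Cardinal.mk_prod, Cardinal.lift_uzero, Cardinal.mk_nat, Cardinal.lift_aleph0]
          exact mul_le_mul_left (mul_le_mul_left hD _) _
      _ ≤ κ := by
          rw [Cardinal.mul_aleph0_eq hκ, Cardinal.mul_aleph0_eq hκ]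
  obtain ⟨γ, hγ⟩ := hΓ S hS
  obtain ⟨n, hn⟩ : ∃ n : ℕ, 1 - ε ≤ q n := by
    obtain ⟨n, hn⟩ := exists_nat_gt (1 / ε)
    refine ⟨n, ?_⟩
    unfold q
    have : 1 / ((n : ℝ) + 2) ≤ ε := by
      rw [div_le_iff₀ (by positivity)]
      rw [div_lt_iff₀ hε] at hn
      nlinarith
    linarith
  refine ⟨(basisV (n, γ) 1 : V Γ), ?_, ?_⟩
  · rw [UniformSpace.Completion.norm_coe]
    change N (Finsupp.single (n, γ) (1 : ℝ)) = 1
    rw [N_single, abs_one]
  · intro t
    let C : Set (X Γ) := {y | (1 - ε) * (|t| + ‖y‖) ≤ ‖t • ((basisV (n, γ) 1 : V Γ) : X Γ) + y‖}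
    have hC : IsClosed C := isClosed_le (by fun_prop) (by fun_prop)
    have hvC : ∀ (d : D) (k : ℕ), ((v d k : V Γ) : X Γ) ∈ C := by
      intro d k
      change (1 - ε) * (|t| + ‖((v d k : V Γ) : X Γ)‖) ≤
        ‖t • ((basisV (n, γ) 1 : V Γ) : X Γ) + ((v d k : V Γ) : X Γ)‖
      rw [← UniformSpace.Completion.coe_smul, ← UniformSpace.Completion.coe_add,
        UniformSpace.Completion.norm_coe, UniformSpace.Completion.norm_coe]
      have h1 : t • (basisV (n, γ) 1 : V Γ) = basisV (n, γ) t := by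
        change t • (Finsupp.single (n, γ) (1 : ℝ)) = Finsupp.single (n, γ) t
        simp
      rw [h1]
      have h2 := octahedral_V (v d k) γ (fun p hp => hγ _ (Set.mem_iUnion.2 ⟨(d, k), p, hp, rfl⟩))
        n t
      refine le_trans ?_ h2
      exact mul_le_mul_of_nonneg_right hn (add_nonneg (abs_nonneg _) (norm_nonneg (v d k : V Γ)))
    have hDC : D ⊆ C := by
      intro d hd
      refine hC.mem_of_tendsto (f := fun k => ((v d k : V Γ) : X Γ)) (b := atTop) ?_
        (Filter.Eventually.of_forall fun k => hvC ⟨d, hd⟩ k)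
      rw [tendsto_iff_norm_sub_tendsto_zero]
      exact squeeze_zero (fun _ => norm_nonneg _) (fun k => (hv d k).le)
        tendsto_one_div_add_atTop_nhds_zero_nat
    intro y hy
    exact (closure_minimal hDC hC) (hYD hy)

omit [LinearOrder Γ] in
/-- Two elements of an infinite family of vectors with integer bound are close on a finite set. -/
lemma exists_close {I : Type u} (v : I → ((ℕ × Γ) →₀ ℝ)) (A : Set I) (hA : A.Infinite) (K : ℕ)
    (hK : ∀ α ∈ A, ∀ p, |v α p| ≤ K) (S : Finset (ℕ × Γ)) (δ : ℝ) (hδ : 0 < δ) :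
    ∃ α ∈ A, ∃ β ∈ A, α ≠ β ∧ ∀ p ∈ S, |v α p - v β p| ≤ δ := by
  let f : I → (S → ℤ) := fun α p => ⌊v α p / δ⌋
  let T : Set (S → ℤ) := Set.pi Set.univ fun _ => Set.Icc (-(⌈(K : ℝ) / δ⌉ + 1)) (⌈(K : ℝ) / δ⌉ + 1)
  have hT : T.Finite := Set.Finite.pi fun _ => Set.finite_Icc _ _
  have hmaps : Set.MapsTo f A T := by
    intro α hα p _
    have h1 := abs_le.1 (hK α hα p)
    constructor
    · have h2 : -((K : ℝ) / δ) ≤ v α p / δ := by
        rw [← neg_div]
        exact div_le_div_of_nonneg_right h1.1 hδ.le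
      have h3 : ((-(⌈(K : ℝ) / δ⌉ + 1) : ℤ) : ℝ) ≤ v α p / δ := by
        push_cast
        have := Int.le_ceil ((K : ℝ) / δ)
        linarith
      exact Int.le_floor.2 h3
    · have h2 : v α p / δ ≤ (K : ℝ) / δ := div_le_div_of_nonneg_right h1.2 hδ.le
      have h3 : (⌊v α p / δ⌋ : ℝ) ≤ ((⌈(K : ℝ) / δ⌉ + 1 : ℤ) : ℝ) := by
        push_cast
        have := Int.le_ceil ((K : ℝ) / δ)
        have := Int.floor_le (v α p / δ)
        linarith
      exact_mod_cast h3
  obtain ⟨α, hα, β, hβ, hne, hf⟩ := hA.exists_ne_map_eq_of_mapsTo hmaps hT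
  refine ⟨α, hα, β, hβ, hne, fun p hp => ?_⟩
  have h1 : ⌊v α p / δ⌋ = ⌊v β p / δ⌋ := congrFun hf ⟨p, hp⟩
  have h2 := Int.abs_sub_lt_one_of_floor_eq_floor h1
  rw [← sub_div, abs_div, abs_of_pos hδ, div_lt_one hδ] at h2
  exact h2.le

/-- The greedy choice. -/
lemma greedy {I : Type u} (v : I → ((ℕ × Γ) →₀ ℝ)) (A : Set I) (hA : A.Infinite) (K : ℕ)
    (hK : ∀ α ∈ A, ∀ p, |v α p| ≤ K) (δ : ℝ) (hδ : 0 < δ) (m : ℕ) :
    ∃ B : Finset I, ∃ s : I → ℝ, (B : Set I) ⊆ A ∧ (∀ α ∈ B, |s α| = 1) ∧ B.card = 2 * m ∧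
      ∀ p, |∑ α ∈ B, s α * v α p| ≤ 2 * K + m * δ := by
  classical
  induction m with
  | zero => exact ⟨∅, fun _ => 0, by simp, by simp, by simp, by simp⟩
  | succ m ih =>
    obtain ⟨B, s, hBA, hs, hcard, hsum⟩ := ih
    have hA' : (A \ B).Infinite := hA.sdiff B.finite_toSet
    obtain ⟨α, hα, β, hβ, hne, hclose⟩ := exists_close v (A \ B) hA' K
      (fun α hα => hK α hα.1) (B.biUnion fun α => (v α).support) δ hδ
    have hαB : α ∉ B := fun h => hα.2 h
    have hβB : β ∉ B := fun h => hβ.2 h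
    refine ⟨insert α (insert β B), fun i => if i = α then 1 else if i = β then -1 else s i,
      ?_, ?_, ?_, ?_⟩
    · intro i hi
      rw [Finset.mem_coe, Finset.mem_insert, Finset.mem_insert] at hi
      rcases hi with rfl | rfl | hi
      · exact hα.1
      · exact hβ.1
      · exact hBA hi
    · intro i hi
      rw [Finset.mem_insert, Finset.mem_insert] at hi
      change |if i = α then (1 : ℝ) else if i = β then -1 else s i| = 1
      split_ifs with h1 h2
      · simp
      · simp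
      · exact hs i ((hi.resolve_left h1).resolve_left h2)
    · rw [Finset.card_insert_of_notMem, Finset.card_insert_of_notMem hβB, hcard]
      · ring
      · rw [Finset.mem_insert]
        rintro (h | h)
        · exact hne h
        · exact hαB h
    · intro p
      have e : ∑ i ∈ insert α (insert β B), (if i = α then 1 else if i = β then -1 else s i) * v i p
          = (v α p - v β p) + ∑ i ∈ B, s i * v i p := by
        rw [Finset.sum_insert, Finset.sum_insert hβB, if_pos rfl, if_neg hne.symm, if_pos rfl]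
        · have : ∑ i ∈ B, (if i = α then 1 else if i = β then -1 else s i) * v i p =
              ∑ i ∈ B, s i * v i p := by
            refine Finset.sum_congr rfl fun i hi => ?_
            have h1 : i ≠ α := by rintro rfl; exact hαB hi
            have h2 : i ≠ β := by rintro rfl; exact hβB hi
            rw [if_neg h1, if_neg h2]
          rw [this]
          ring
        · rw [Finset.mem_insert]
          rintro (h | h)
          · exact hne h
          · exact hαB h
      rw [e]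
      push_cast
      by_cases hp : p ∈ B.biUnion fun α => (v α).support
      · calc |(v α p - v β p) + ∑ i ∈ B, s i * v i p|
            ≤ |v α p - v β p| + |∑ i ∈ B, s i * v i p| := abs_add_le _ _
          _ ≤ δ + (2 * K + m * δ) := add_le_add (hclose p hp) (hsum p)
          _ = _ := by ring
      · have h0 : ∑ i ∈ B, s i * v i p = 0 := by
          refine Finset.sum_eq_zero fun i hi => ?_
          have : v i p = 0 := by
            by_contra h
            exact hp (Finset.mem_biUnion.2 ⟨i, hi, Finsupp.mem_support_iff.2 h⟩)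
          rw [this, mul_zero]
        rw [h0, add_zero]
        have h1 := hK α hα.1 p
        have h2 := hK β hβ.1 p
        have h3 := abs_sub (v α p) (v β p)
        have h4 : 0 ≤ (m + 1 : ℝ) * δ := by positivity
        linarith

lemma coe_sum_V {I : Type u} (B : Finset I) (s : I → ℝ) (v : I → V Γ) :
    (((∑ α ∈ B, s α • v α : V Γ)) : X Γ) = ∑ α ∈ B, s α • ((v α : V Γ) : X Γ) := by
  classical
  induction B using Finset.induction_on with
  | empty => simp
  | insert a B ha ih =>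
    rw [Finset.sum_insert ha, Finset.sum_insert ha, UniformSpace.Completion.coe_add,
      UniformSpace.Completion.coe_smul, ih]

/-- An element of `V`, as a finitely supported function. -/
def toF (v : V Γ) : (ℕ × Γ) →₀ ℝ := v

lemma no_copy {I : Type u} (hI : ¬ (Set.univ : Set I).Countable) :
    ¬ ContainsCopy (X Γ) (lp (fun _ : I => ℝ) 1) := by
  classical
  rintro ⟨Z, _, ⟨e⟩⟩
  let T : lp (fun _ : I => ℝ) 1 →L[ℝ] X Γ := Z.subtypeL.comp e.toContinuousLinearMap
  obtain ⟨C, hC, hTC⟩ : ∃ C : ℝ, 0 < C ∧ ∀ a, ‖a‖ ≤ C * ‖T a‖ := by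
    refine ⟨‖e.symm.toContinuousLinearMap‖ + 1, by positivity, fun a => ?_⟩
    have h1 := e.symm.toContinuousLinearMap.le_opNorm (e a)
    have h2 : e.symm.toContinuousLinearMap (e a) = a := e.symm_apply_apply a
    rw [h2] at h1
    have h3 : ‖e a‖ = ‖T a‖ := rfl
    rw [h3] at h1
    nlinarith [norm_nonneg (T a)]
  let b : I → lp (fun _ : I => ℝ) 1 := fun α => lp.single 1 α 1
  have happ : ∀ α, ∃ v : V Γ, ‖(v : X Γ) - T (b α)‖ < 1 / (2 * C) := by
    intro α
    obtain ⟨v, hv⟩ := (UniformSpace.Completion.denseRange_coe (α := V Γ)).exists_dist_lt (T (b α))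
      (show (0 : ℝ) < 1 / (2 * C) by positivity)
    exact ⟨v, by rw [norm_sub_rev, ← dist_eq_norm]; exact hv⟩
  choose v hv using happ
  have hbound : ∀ α, ∃ n : ℕ, (∀ p ∈ (toF (v α)).support, p.1 < n) ∧
      ∀ p, |(toF (v α)) p| ≤ n := by
    intro α
    obtain ⟨n, hn⟩ := exists_nat_ge (N (toF (v α)))
    refine ⟨max n (((toF (v α)).support.sup Prod.fst) + 1), fun p hp => ?_, fun p => ?_⟩
    · refine lt_max_of_lt_right (Nat.lt_succ_of_le ?_)
      exact Finset.le_sup (f := Prod.fst) hp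
    · refine (abs_le_N _ p).trans (hn.trans ?_)
      exact_mod_cast le_max_left _ _
  choose n hn1 hn2 using hbound
  obtain ⟨K, hK⟩ : ∃ K : ℕ, {α | n α = K}.Infinite := by
    by_contra hcon
    push Not at hcon
    apply hI
    have : (Set.univ : Set I) = ⋃ K : ℕ, {α | n α = K} := by
      ext α; simp
    rw [this]
    exact Set.countable_iUnion fun K => (Set.not_infinite.1 (by simpa using hcon K)).countable
  set A := {α | n α = K} with hA
  have hAK : ∀ α ∈ A, ∀ p, |(toF (v α)) p| ≤ K := by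
    intro α hα p
    have := hn2 α p
    rwa [show n α = K from hα] at this
  set G : ℝ := ∑ n ∈ Finset.range K, ((n : ℝ) + 2) with hG
  have hG0 : 0 ≤ G := Finset.sum_nonneg fun n _ => by positivity
  obtain ⟨m, hm⟩ := exists_nat_gt (C * ((2 * K + 1) * G))
  have hm0 : 0 < (m : ℝ) := lt_of_le_of_lt (by positivity) hm
  obtain ⟨B, s, hBA, hs, hcard, hsum⟩ := greedy (fun α => toF (v α)) A hK K hAK (1 / m) (by positivity) m
  -- the upper estimate
  set u : V Γ := ∑ α ∈ B, s α • v α with hu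
  have hu_apply : ∀ p, (toF u) p = ∑ α ∈ B, s α * (toF (v α)) p := by
    intro p
    change (∑ α ∈ B, s α • (toF (v α)) : (ℕ × Γ) →₀ ℝ) p = _
    rw [Finsupp.finsetSum_apply]
    rfl
  have hup : ‖u‖ ≤ (2 * K + 1) * G := by
    refine N_le_sup K (2 * K + 1) (by positivity) (toF u) ?_ ?_
    · intro p hp
      by_contra hcon
      apply Finsupp.mem_support_iff.1 hp
      rw [hu_apply]
      refine Finset.sum_eq_zero fun α hα => ?_
      have : (toF (v α)) p = 0 := by
        by_contra h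
        have h1 := hn1 α p (Finsupp.mem_support_iff.2 h)
        rw [show n α = K from hBA hα] at h1
        exact hcon h1
      rw [this, mul_zero]
    · intro p
      rw [hu_apply]
      refine (hsum p).trans (le_of_eq ?_)
      field_simp
  -- the lower estimate
  have hlow1 : (2 * m : ℝ) ≤ C * ‖T (∑ α ∈ B, s α • b α)‖ := by
    refine le_trans (le_of_eq ?_) (hTC _)
    have h1 := lp.norm_sum_single (E := fun _ : I => ℝ) (p := 1) (by norm_num) s B
    simp only [ENNReal.toReal_one, Real.rpow_one] at h1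
    have h2 : ∑ α ∈ B, s α • b α = ∑ α ∈ B, lp.single (E := fun _ : I => ℝ) 1 α (s α) := by
      refine Finset.sum_congr rfl fun α _ => ?_
      change s α • lp.single (E := fun _ : I => ℝ) 1 α (1 : ℝ) =
        lp.single (E := fun _ : I => ℝ) 1 α (s α)
      rw [← lp.single_smul]
      simp
    rw [h2, h1]
    have h3 : ∑ α ∈ B, ‖s α‖ = ∑ α ∈ B, 1 := Finset.sum_congr rfl fun α hα => hs α hα
    rw [h3, Finset.sum_const, hcard]
    simp
  have hlow2 : ‖(u : X Γ) - T (∑ α ∈ B, s α • b α)‖ ≤ m / C := by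
    rw [hu, coe_sum_V, map_sum, ← Finset.sum_sub_distrib]
    refine (norm_sum_le _ _).trans ?_
    calc ∑ α ∈ B, ‖s α • ((v α : V Γ) : X Γ) - T (s α • b α)‖ ≤ ∑ α ∈ B, 1 / (2 * C) := by
          refine Finset.sum_le_sum fun α hα => ?_
          rw [map_smul, ← smul_sub, norm_smul, Real.norm_eq_abs, hs α hα, one_mul]
          exact (hv α).le
      _ = m / C := by
          rw [Finset.sum_const, hcard, nsmul_eq_mul]
          push_cast
          field_simp
  have h5 : ‖T (∑ α ∈ B, s α • b α)‖ ≤ ‖u‖ + m / C := by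
    have h6 := norm_sub_norm_le (T (∑ α ∈ B, s α • b α)) (u : X Γ)
    rw [norm_sub_rev, UniformSpace.Completion.norm_coe] at h6
    linarith
  have h7 : (2 * m : ℝ) ≤ C * ((2 * K + 1) * G) + m := by
    calc (2 * m : ℝ) ≤ C * ‖T (∑ α ∈ B, s α • b α)‖ := hlow1
      _ ≤ C * (‖u‖ + m / C) := mul_le_mul_of_nonneg_left h5 hC.le
      _ = C * ‖u‖ + m := by field_simp
      _ ≤ _ := by
        have := mul_le_mul_of_nonneg_left hup hC.le
        linarith
  linarith

end construction

/-- For every infinite cardinal `κ` there is a `κ`-octahedral Banach space without subspaces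
isomorphic to `ℓ_1(κ⁺)`. -/
theorem result (κ : Cardinal.{u}) (hκ : ℵ₀ ≤ κ) :
    ∃ (X : Type u) (_ : NormedAddCommGroup X) (_ : NormedSpace ℝ X), CompleteSpace X ∧
      IsOctahedral κ X ∧
      ∀ Γ : Type u, #Γ = Order.succ κ → ¬ ContainsCopy X (lp (fun _ : Γ => ℝ) 1) := by
  refine ⟨X (Order.succ κ).ord.ToType, inferInstance, inferInstance, inferInstance,
    octahedral_X κ hκ ?_, fun Γ hΓ => no_copy ?_⟩
  · intro S hS
    have h1 : Order.cof (Order.succ κ).ord.ToType = Order.succ κ := by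
      rw [Ordinal.cof_toType]
      exact (Cardinal.isRegular_succ hκ).cof_ord
    by_contra hcon
    push Not at hcon
    have h2 : Order.cof (Order.succ κ).ord.ToType ≤ #S := Order.cof_le fun γ => by
      obtain ⟨α, hα, hγ⟩ := hcon γ
      exact ⟨α, hα, hγ⟩
    rw [h1] at h2
    exact absurd (h2.trans hS) (not_le.2 (Order.lt_succ κ))
  · intro h
    have h1 : #Γ ≤ ℵ₀ := by
      rw [← Cardinal.mk_univ]
      exact (Cardinal.le_aleph0_iff_set_countable).2 h
    rw [hΓ] at h1
    exact absurd (h1.trans hκ) (not_le.2 (Order.lt_succ κ))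

end Pool.Agent.Results.MP_814c9d_an.NoCopy
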